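import Pool.Agent.Q63.RF.St

/-!
# Project RF (helper63): basic facts
-/

set_option autoImplicit false

namespace Pool.Agent.Q38.RF

open Pool.Agent.Q63.RF

variable {n d : ℕ}

theorem prF_ga (τ : ℤˣ) (j : Fin n) : prF (ga τ j : WG n d) = 1 :=
  (csW n d).lift_apply_simple liftable_prF (.inl (τ, j))

theorem prF_gs (k : Fin d) : prF (gs k : WG n d) = gf k :=
  (csW n d).lift_apply_simple liftable_prF (.inr k)

theorem chi_gf (k : Fin d) : chi (gf k : FG d) = -1 :=
  (csF d).lift_apply_simple liftable_chi k

theorem ga_sq (τ : ℤˣ) (j : Fin n) : (ga τ j * ga τ j : WG n d) = 1 :=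
  (csW n d).simple_mul_simple_self _

theorem gs_sq (k : Fin d) : (gs k * gs k : WG n d) = 1 :=
  (csW n d).simple_mul_simple_self _

theorem gf_sq (k : Fin d) : (gf k * gf k : FG d) = 1 :=
  (csF d).simple_mul_simple_self _

theorem comm_of {B W : Type} [Group W] {M : CoxeterMatrix B} (cs : CoxeterSystem M W) (i j : B)
    (h : M i j = 2) : cs.simple i * cs.simple j = cs.simple j * cs.simple i := by
  have h1 := cs.simple_mul_simple_pow i j
  rw [h, pow_two] at h1
  have h2 := eq_inv_of_mul_eq_one_left h1
  rw [mul_inv_rev, cs.inv_simple, cs.inv_simple] at h2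
  exact h2

theorem ga_comm (τ : ℤˣ) (i j : Fin n) : (ga τ i * ga τ j : WG n d) = ga τ j * ga τ i := by
  by_cases h : i = j
  · rw [h]
  · exact comm_of (csW n d) (.inl (τ, i)) (.inl (τ, j)) (by
      show entry n d (.inl (τ, i)) (.inl (τ, j)) = 2
      simp [entry, h])

theorem ga_gs (τ : ℤˣ) (i : Fin n) (k : Fin d) : (ga τ i * gs k : WG n d) = gs k * ga τ i :=
  comm_of (csW n d) (.inl (τ, i)) (.inr k) rfl

theorem liftable_io : (MF d).IsLiftable (fun k : Fin d => (gs k : WG n d)) := by
  intro k l
  change (gs k * gs l : WG n d) ^ (if k = l then 1 else 0) = 1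
  by_cases h : k = l
  · rw [if_pos h, h, pow_one, gs_sq]
  · rw [if_neg h, pow_zero]

/-- the embedding of `F` in `W` -/
noncomputable def io : FG d →* WG n d := (csF d).lift ⟨_, liftable_io⟩

theorem io_gf (k : Fin d) : (io (gf k) : WG n d) = gs k :=
  (csF d).lift_apply_simple liftable_io k

theorem prF_io (β : FG d) : prF (io β : WG n d) = β := by
  have h : (prF.comp (io : FG d →* WG n d)) = MonoidHom.id (FG d) := by
    apply (csF d).ext_simple
    intro k
    show prF (io (gf k) : WG n d) = gf k
    rw [io_gf, prF_gs]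
  exact DFunLike.congr_fun h β

theorem length_gs (k : Fin d) : (csW n d).length (gs k) = 1 := by
  unfold gs
  haveI : Nontrivial (WG n d) := by
    refine ⟨gs k, 1, ?_⟩
    intro h
    have h1 := congrArg (fun x => chi (prF x)) h
    simp only [prF_gs, chi_gf, map_one] at h1
    exact absurd h1 (by decide)
  exact (csW n d).length_simple _

theorem length_simple_le {B W : Type} [Group W] {M : CoxeterMatrix B} (cs : CoxeterSystem M W) (i : B) :
    cs.length (cs.simple i) ≤ 1 := by
  have := cs.length_wordProd_le [i]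
  simpa using this

theorem length_io (β : FG d) : (csW n d).length (io β) ≤ (csF d).length β := by
  obtain ⟨w, hw, rfl⟩ := (csF d).exists_isReduced β
  rw [hw.eq]
  clear hw
  induction w with
  | nil => simp
  | cons k w ih =>
    rw [(csF d).wordProd_cons, map_mul, List.length_cons]
    refine ((csW n d).length_mul_le _ _).trans ?_
    have h1 : (io ((csF d).simple k) : WG n d) = (csW n d).simple (.inr k) := io_gf k
    rw [h1]
    have := length_simple_le (csW n d) (.inr k)
    omega

end Pool.Agent.Q38.RF
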