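import Pool.Agent.Q38.RF.Base

/-!
# Project RF (helper63), job BLK: counting blocks
-/

set_option autoImplicit false

namespace Pool.Agent.Q38.RF

open Pool.Agent.Q63.RF

variable {n d : ℕ}

/-- the elementary abelian subgroups -/
noncomputable def KK (n d : ℕ) (τ : ℤˣ) : Subgroup (WG n d) := Subgroup.closure (Set.range (ga τ))

/-- the image of `F` -/
noncomputable def HH (n d : ℕ) : Subgroup (WG n d) := Subgroup.closure (Set.range gs)

theorem ga_mem (τ : ℤˣ) (j : Fin n) : (ga τ j : WG n d) ∈ KK n d τ :=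
  Subgroup.subset_closure ⟨j, rfl⟩

theorem gs_mem (k : Fin d) : (gs k : WG n d) ∈ HH n d := Subgroup.subset_closure ⟨k, rfl⟩

theorem ga_inv (τ : ℤˣ) (j : Fin n) : (ga τ j : WG n d)⁻¹ = ga τ j :=
  inv_eq_of_mul_eq_one_left (ga_sq τ j)

/-- elements of `K τ` are products of different generators -/
theorem KK_list (τ : ℤˣ) (x : WG n d) (hx : x ∈ KK n d τ) :
    ∃ L : List (Fin n), L.Nodup ∧ (L.map (ga τ)).prod = x := by
  have hcl : ∀ (x : WG n d) (j : Fin n), (∃ L : List (Fin n), L.Nodup ∧ (L.map (ga τ)).prod = x) →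
      ∃ L : List (Fin n), L.Nodup ∧ (L.map (ga τ)).prod = x * ga τ j := by
    rintro x j ⟨L, hL, rfl⟩
    have hcomm : ∀ L : List (Fin n), (L.map (ga τ)).prod * ga τ j = (ga τ j : WG n d) * (L.map (ga τ)).prod := by
      intro L
      induction L with
      | nil => simp
      | cons a L ih =>
        rw [List.map_cons, List.prod_cons, mul_assoc, ih, ← mul_assoc, ga_comm τ a j, mul_assoc]
    by_cases hj : j ∈ L
    · refine ⟨L.erase j, hL.erase j, ?_⟩
      have hp : L.Perm (j :: L.erase j) := List.perm_cons_erase hj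
      have h1 : (L.map (ga τ)).prod = ((j :: L.erase j).map (ga τ : Fin n → WG n d)).prod := by
        refine (hp.map _).prod_eq' ?_
        rw [List.pairwise_map]
        exact List.pairwise_of_forall fun a b => ga_comm τ a b
      rw [hcomm, h1, List.map_cons, List.prod_cons, ← mul_assoc, ga_sq, one_mul]
    · refine ⟨j :: L, List.nodup_cons.2 ⟨hj, hL⟩, ?_⟩
      rw [List.map_cons, List.prod_cons, hcomm]
  refine Subgroup.closure_induction_right (p := fun x _ => ∃ L : List (Fin n), L.Nodup ∧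
    (L.map (ga τ)).prod = x) ⟨[], List.nodup_nil, rfl⟩ ?_ ?_ hx
  · rintro x _ _ ⟨j, rfl⟩ h
    exact hcl x j h
  · rintro x _ _ ⟨j, rfl⟩ h
    rw [ga_inv]
    exact hcl x j h

theorem length_list (L : List (WG n d)) : (csW n d).length L.prod ≤ (L.map (csW n d).length).sum := by
  induction L with
  | nil => simp
  | cons a L ih =>
    rw [List.prod_cons, List.map_cons, List.sum_cons]
    exact ((csW n d).length_mul_le _ _).trans (by omega)

theorem KK_length (τ : ℤˣ) (x : WG n d) (hx : x ∈ KK n d τ) : (csW n d).length x ≤ n := by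
  obtain ⟨L, hL, rfl⟩ := KK_list τ x hx
  have h1 : ∀ L : List (Fin n), (csW n d).length ((L.map (ga τ)).prod) ≤ L.length := by
    intro L
    induction L with
    | nil => simp
    | cons a L ih =>
      rw [List.map_cons, List.prod_cons, List.length_cons]
      refine ((csW n d).length_mul_le _ _).trans ?_
      have : (csW n d).length (ga τ a) ≤ 1 := length_simple_le (csW n d) _
      omega
  refine (h1 L).trans ?_
  have := hL.length_le_card
  simpa using this

theorem HH_io (b : WG n d) (hb : b ∈ HH n d) : b = io (prF b) := by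
  have h : b ∈ (io : FG d →* WG n d).range := by
    have h1 : HH n d ≤ (io : FG d →* WG n d).range := by
      unfold HH
      rw [Subgroup.closure_le]
      rintro _ ⟨k, rfl⟩
      exact ⟨gf k, io_gf k⟩
    exact h1 hb
  obtain ⟨β, rfl⟩ := h
  rw [prF_io]

theorem prF_KK (τ : ℤˣ) (x : WG n d) (hx : x ∈ KK n d τ) : prF x = 1 := by
  have h1 : KK n d τ ≤ (prF : WG n d →* FG d).ker := by
    unfold KK
    rw [Subgroup.closure_le]
    rintro _ ⟨k, rfl⟩
    exact prF_ga τ k
  exact h1 hx

theorem HH_comm (b : WG n d) (hb : b ∈ HH n d) (τ : ℤˣ) (j : Fin n) : b * ga τ j = ga τ j * b := by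
  have h1 : HH n d ≤ Subgroup.centralizer {(ga τ j : WG n d)} := by
    unfold HH
    rw [Subgroup.closure_le]
    rintro _ ⟨k, rfl⟩
    rw [SetLike.mem_coe, Subgroup.mem_centralizer_singleton_iff]
    exact (ga_gs τ j k).symm
  have h2 := h1 hb
  rw [Subgroup.mem_centralizer_singleton_iff] at h2
  exact h2

/-- `x` has a representation with `m` blocks -/
def Rep (τ : ℤˣ) (x : WG n d) (m : ℕ) : Prop :=
  ∃ L : List (WG n d), L.length = m ∧ (∀ y ∈ L, ∃ σ, y ∈ KK n d σ) ∧
    ∃ k ∈ KK n d τ, ∃ b ∈ HH n d, x = L.prod * k * b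

theorem Rep.hga {τ : ℤˣ} {x : WG n d} {m : ℕ} (h : Rep τ x m) (j : Fin n) : Rep τ (x * ga τ j) m := by
  obtain ⟨L, h1, h2, k, hk, b, hb, rfl⟩ := h
  refine ⟨L, h1, h2, k * ga τ j, mul_mem hk (ga_mem τ j), b, hb, ?_⟩
  rw [mul_assoc _ b, HH_comm b hb]
  simp only [mul_assoc]

theorem Rep.hgs {τ : ℤˣ} {x : WG n d} {m : ℕ} (h : Rep τ x m) (j : Fin d) : Rep τ (x * gs j) m := by
  obtain ⟨L, h1, h2, k, hk, b, hb, rfl⟩ := h
  exact ⟨L, h1, h2, k, hk, b * gs j, mul_mem hb (gs_mem j), by simp only [mul_assoc]⟩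

theorem Rep.neg {τ : ℤˣ} {x : WG n d} {m : ℕ} (h : Rep τ x m) (σ : ℤˣ) : Rep σ x (m + 1) := by
  obtain ⟨L, h1, h2, k, hk, b, hb, rfl⟩ := h
  refine ⟨L ++ [k], by simp [h1], ?_, 1, one_mem _, b, hb, ?_⟩
  · intro y hy
    rcases List.mem_append.1 hy with hy | hy
    · exact h2 y hy
    · rw [List.mem_singleton] at hy
      exact ⟨τ, hy ▸ hk⟩
  · simp

theorem Rep.ex (τ : ℤˣ) (x : WG n d) : ∃ m, Rep τ x m := by
  refine (csW n d).simple_induction_right (p := fun x => ∃ m, Rep τ x m) x ⟨0, [], rfl, by simp, 1, one_mem _, 1, one_mem _, by simp⟩ ?_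
  rintro w i ⟨m, hm⟩
  rcases i with ⟨σ, j⟩ | k
  · exact ⟨m + 1 + 1, ((hm.neg σ).hga j).neg τ⟩
  · exact ⟨m, hm.hgs k⟩

theorem blk : S_BLK := by
  intro n d
  refine ⟨fun τ x => sInf {m | Rep τ x m}, ?_, ?_, ?_, ?_, ?_⟩
  · intro τ
    apply Nat.eq_zero_of_le_zero
    exact Nat.sInf_le ⟨[], rfl, by simp, 1, one_mem _, 1, one_mem _, by simp⟩
  · intro τ x j
    show sInf {m | Rep τ (x * ga τ j) m} = sInf {m | Rep τ x m}
    congr 1
    ext m
    constructor
    · intro h
      have h1 := Rep.hga (show Rep τ (x * ga τ j) m from h) j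
      rw [mul_assoc, ga_sq, mul_one] at h1
      exact h1
    · intro h
      exact Rep.hga h j
  · intro τ x k
    show sInf {m | Rep τ (x * gs k) m} = sInf {m | Rep τ x m}
    congr 1
    ext m
    constructor
    · intro h
      have h1 := Rep.hgs (show Rep τ (x * gs k) m from h) k
      rw [mul_assoc, gs_sq, mul_one] at h1
      exact h1
    · intro h
      exact Rep.hgs h k
  · intro τ x
    have h1 : Rep τ x (sInf {m | Rep τ x m}) := Nat.sInf_mem (Rep.ex τ x)
    exact Nat.sInf_le (h1.neg (-τ))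
  · intro τ x
    have h1 : Rep τ x (sInf {m | Rep τ x m}) := Nat.sInf_mem (Rep.ex τ x)
    obtain ⟨m, hm⟩ : ∃ m, m = sInf {m | Rep τ x m} := ⟨_, rfl⟩
    rw [← hm] at h1
    show _ ≤ n * (sInf {m | Rep τ x m} + 1) + _
    rw [← hm]
    obtain ⟨L, h2, h3, k, hk, b, hb, rfl⟩ := h1
    have e1 : prF (L.prod * k * b) = prF b := by
      rw [map_mul, map_mul, prF_KK τ k hk, mul_one]
      have : prF L.prod = 1 := by
        rw [map_list_prod]
        apply List.prod_eq_one
        intro y hy
        obtain ⟨z, hz, rfl⟩ := List.mem_map.1 hy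
        obtain ⟨σ, hσ⟩ := h3 z hz
        exact prF_KK σ z hσ
      rw [this, one_mul]
    rw [e1]
    have e2 : (csW n d).length L.prod ≤ n * m := by
      refine (length_list L).trans ?_
      have h4 := List.sum_le_card_nsmul (L.map (csW n d).length) n (by
        intro y hy
        obtain ⟨z, hz, rfl⟩ := List.mem_map.1 hy
        obtain ⟨σ, hσ⟩ := h3 z hz
        exact KK_length σ z hσ)
      rw [List.length_map, h2, smul_eq_mul, mul_comm] at h4
      exact h4
    have e3 := KK_length τ k hk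
    have e4 : (csW n d).length b ≤ (csF d).length (prF b) := by
      conv_lhs => rw [HH_io b hb]
      exact length_io _
    have e5 := (csW n d).length_mul_le (L.prod * k) b
    have e6 := (csW n d).length_mul_le L.prod k
    rw [mul_add, mul_one]
    omega

end Pool.Agent.Q38.RF
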