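import Pool.Agent.Q38.RF.Base

/-!
# Project RF (helper63), job LOW: the lower bound for the smaller field
-/

set_option autoImplicit false

namespace Pool.Agent.Q38.RF

open Pool.Agent.Q63.RF MeasureTheory ProbabilityTheory Filter Topology
open scoped ENNReal NNReal

variable {n d : ℕ}

/-- the good event for the generator `k` -/
def Ak (k : Fin d) (ω : Om d) : Prop :=
  ω.2 (gf k) = true ∧ ∀ j, j ≠ k → ω.2 (gf j) = false ∧ ω.2 (gf k * gf j) = false

theorem field_eq (ρ : ℝ≥0) {c : FG d → Fin d → FG d} {e : FG d → FG d → FG d} (hT : Tree d c e)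
    {k : Fin d} {ω : Om d} (h : Ak k ω) {x : WG n d} (hx : prF x = 1 ∨ prF x = gf k) (i : Gen n d) :
    fieldOne ρ c ω x i = match i with
      | .inl p => if p.1 = ω.1 * chi (prF x) then ρ else 0
      | .inr j => if j = k then 1 else 0 := by
  have hck : c (gf k) k = gf k := by
    have h1 := hT.symm 1 k
    rw [one_mul, hT.one] at h1
    exact h1
  rcases i with p | j
  · rfl
  · show (if ω.2 (c (prF x) j) = true then (1 : ℝ≥0) else 0) = if j = k then 1 else 0
    by_cases hj : j = k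
    · subst hj
      rw [if_pos rfl, if_pos]
      rcases hx with hx | hx <;> rw [hx]
      · rw [hT.one]; exact h.1
      · rw [hck]; exact h.1
    · rw [if_neg hj, if_neg]
      rcases hx with hx | hx <;> rw [hx]
      · rw [hT.one, (h.2 j hj).1]; simp
      · rw [hT.two k j hj, (h.2 j hj).2]; simp

theorem step_eq (ρ : ℝ≥0) {c : FG d → Fin d → FG d} {e : FG d → FG d → FG d} (hT : Tree d c e)
    {k : Fin d} {ω : Om d} (h : Ak k ω) {x : WG n d} (hx : prF x = 1 ∨ prF x = gf k) (Λ : ℝ≥0)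
    (F : WG n d → ℝ≥0∞) :
    stepE (csW n d) Λ (fieldOne ρ c ω) F x = (((Λ - (n * ρ + 1)) / Λ : ℝ≥0) : ℝ≥0∞) * F x +
      (∑ j : Fin n, ((ρ / Λ : ℝ≥0) : ℝ≥0∞) * F (x * ga (ω.1 * chi (prF x)) j) +
        ((1 / Λ : ℝ≥0) : ℝ≥0∞) * F (x * gs k)) := by
  have ht : tot (fieldOne ρ c ω) x = n * ρ + 1 := by
    unfold tot
    rw [Finset.sum_congr rfl fun i _ => field_eq ρ hT h hx i, Fintype.sum_sum_type, Fintype.sum_prod_type]
    rcases Int.units_eq_one_or (ω.1 * chi (prF x)) with h' | h' <;> simp [h']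
  unfold stepE
  rw [ht]
  congr 1
  rw [Finset.sum_congr rfl fun i _ => by rw [field_eq ρ hT h hx i], Fintype.sum_sum_type,
    Fintype.sum_prod_type]
  congr 1
  · rw [Finset.sum_eq_single (ω.1 * chi (prF x))]
    · simp only [if_true]
      rfl
    · intro τ _ hτ
      simp [hτ]
    · intro h; exact absurd (Finset.mem_univ _) h
  · rw [Finset.sum_eq_single k]
    · simp only [if_true]
      rfl
    · intro j _ hj
      simp [hj]
    · intro h; exact absurd (Finset.mem_univ _) h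

theorem claim (ρ : ℝ≥0) {c : FG d → Fin d → FG d} {e : FG d → FG d → FG d} (hT : Tree d c e)
    {k : Fin d} {ω : Om d} (h : Ak k ω) (Λ : ℝ≥0) (hΛ : 0 < Λ) (hΛ2 : n * ρ + 1 ≤ Λ)
    (g : ℤˣ → WG n d → ℝ) (s : ℝ) (hs : 0 ≤ s)
    (h1 : ∀ τ x, 0 ≤ g τ x ∧ g τ x ≤ ((csW n d).length x : ℝ))
    (h2 : ∀ τ x k, g τ (x * gs k) = g τ x)
    (h3 : ∀ τ x, s ≤ ρ * ∑ j : Fin n, (g τ (x * ga τ j) - g τ x) + (g (-τ) x - g τ x)) (N : ℕ) :
    ∀ x : WG n d, (prF x = 1 ∨ prF x = gf k) →
      ENNReal.ofReal (g (ω.1 * chi (prF x)) x + N * (s / Λ)) ≤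
        (stepE (csW n d) Λ (fieldOne ρ c ω))^[N] (fun x => ((csW n d).length x : ℝ≥0∞)) x := by
  have hΛr : (0 : ℝ) < Λ := by exact_mod_cast hΛ
  induction N with
  | zero =>
    intro x _
    simp only [Function.iterate_zero, id, Nat.cast_zero, zero_mul, add_zero]
    rw [← ENNReal.ofReal_natCast]
    exact ENNReal.ofReal_le_ofReal (h1 _ x).2
  | succ N ih =>
    intro x hx
    rw [Function.iterate_succ_apply', step_eq ρ hT h hx]
    set F := (stepE (csW n d) Λ (fieldOne ρ c ω))^[N] (fun x => ((csW n d).length x : ℝ≥0∞)) with hF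
    set t := ω.1 * chi (prF x) with ht
    have i1 := ih x hx
    rw [← ht] at i1
    have i2 : ∀ j : Fin n, ENNReal.ofReal (g t (x * ga t j) + N * (s / Λ)) ≤ F (x * ga t j) := by
      intro j
      have hp : prF (x * ga t j) = prF x := by rw [map_mul, prF_ga, mul_one]
      have := ih (x * ga t j) (by rw [hp]; exact hx)
      rw [hp, ← ht] at this
      exact this
    have i3 : ENNReal.ofReal (g (-t) x + N * (s / Λ)) ≤ F (x * gs k) := by
      have hp : prF (x * gs k) = prF x * gf k := by rw [map_mul, prF_gs]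
      have hx' : prF (x * gs k) = 1 ∨ prF (x * gs k) = gf k := by
        rw [hp]
        rcases hx with hx | hx <;> rw [hx]
        · right; rw [one_mul]
        · left; exact gf_sq k
      have := ih (x * gs k) hx'
      rw [hp, map_mul, chi_gf, h2] at this
      have e1 : ω.1 * (chi (prF x) * -1) = -t := by rw [ht]; simp
      rw [e1] at this
      exact this
    have hN : 0 ≤ (N : ℝ) * (s / Λ) := by positivity
    have p1 : ∀ (q : ℝ≥0) (y : ℝ), (q : ℝ≥0∞) * ENNReal.ofReal y = ENNReal.ofReal (q * y) := by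
      intro q y
      rw [ENNReal.ofReal_mul q.coe_nonneg, ENNReal.ofReal_coe_nnreal]
    have q1 : ENNReal.ofReal (((Λ - (n * ρ + 1)) / Λ : ℝ≥0) * (g t x + N * (s / Λ))) ≤
        (((Λ - (n * ρ + 1)) / Λ : ℝ≥0) : ℝ≥0∞) * F x := by
      rw [← p1]; exact mul_le_mul_right i1 _
    have q2 : ∑ j : Fin n, ENNReal.ofReal ((ρ / Λ : ℝ≥0) * (g t (x * ga t j) + N * (s / Λ))) ≤
        ∑ j : Fin n, ((ρ / Λ : ℝ≥0) : ℝ≥0∞) * F (x * ga t j) := by
      refine Finset.sum_le_sum fun j _ => ?_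
      rw [← p1]; exact mul_le_mul_right (i2 j) _
    have q3 : ENNReal.ofReal ((1 / Λ : ℝ≥0) * (g (-t) x + N * (s / Λ))) ≤
        ((1 / Λ : ℝ≥0) : ℝ≥0∞) * F (x * gs k) := by
      rw [← p1]; exact mul_le_mul_right i3 _
    refine le_trans ?_ (add_le_add q1 (add_le_add q2 q3))
    have z1 : ∀ (q : ℝ≥0) (τ : ℤˣ) (y : WG n d), 0 ≤ (q : ℝ) * (g τ y + N * (s / Λ)) := fun q τ y =>
      mul_nonneg q.coe_nonneg (add_nonneg (h1 τ y).1 hN)
    rw [← ENNReal.ofReal_sum_of_nonneg fun j _ => z1 _ _ _,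
      ← ENNReal.ofReal_add (Finset.sum_nonneg fun j _ => z1 _ _ _) (z1 _ _ _),
      ← ENNReal.ofReal_add (z1 _ _ _) (add_nonneg (Finset.sum_nonneg fun j _ => z1 _ _ _) (z1 _ _ _))]
    refine ENNReal.ofReal_le_ofReal ?_
    have h4 := h3 t x
    rw [NNReal.coe_div, NNReal.coe_div, NNReal.coe_div, NNReal.coe_sub hΛ2]
    push_cast
    rw [Finset.sum_sub_distrib, Finset.sum_const, Finset.card_univ, Fintype.card_fin, nsmul_eq_mul] at h4
    have e2 : ∑ j : Fin n, (ρ : ℝ) / Λ * (g t (x * ga t j) + N * (s / Λ)) =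
        ρ / Λ * ∑ j : Fin n, g t (x * ga t j) + ρ / Λ * (n * (N * (s / Λ))) := by
      rw [← Finset.mul_sum, Finset.sum_add_distrib, Finset.sum_const, Finset.card_univ, Fintype.card_fin,
        nsmul_eq_mul]
      ring
    rw [e2]
    set S := ∑ j : Fin n, g t (x * ga t j)
    have e3 : ((Λ : ℝ) - (n * ρ + 1)) / Λ * (g t x + N * (s / Λ)) +
        (ρ / Λ * S + ρ / Λ * (n * (N * (s / Λ))) + 1 / Λ * (g (-t) x + N * (s / Λ))) =
        g t x + N * (s / Λ) + (ρ * (S - n * g t x) + (g (-t) x - g t x)) / Λ := by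
      field_simp
      ring
    rw [e3]
    have e4 : s / Λ ≤ (ρ * (S - n * g t x) + (g (-t) x - g t x)) / Λ := div_le_div_of_nonneg_right h4 hΛr.le
    linarith

open Classical in
/-- the elements on which the random set is prescribed to be empty -/
noncomputable def F0 (k : Fin d) : Finset (FG d) :=
  (Finset.univ.erase k).image gf ∪ (Finset.univ.erase k).image (fun j => gf k * gf j)

theorem card_F0 (hinj : Function.Injective (gf (d := d))) (hne : ∀ k j l : Fin d, gf k * gf j ≠ gf l)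
    (k : Fin d) : (F0 k).card = 2 * (d - 1) := by
  classical
  unfold F0
  rw [Finset.card_union_of_disjoint, Finset.card_image_of_injective _ hinj,
    Finset.card_image_of_injective, Finset.card_erase_of_mem (Finset.mem_univ _), Finset.card_univ,
    Fintype.card_fin]
  · omega
  · intro i j hij
    exact hinj (mul_left_cancel hij)
  · rw [Finset.disjoint_left]
    intro β h1 h2
    obtain ⟨l, _, hl⟩ := Finset.mem_image.1 h1
    obtain ⟨j, _, hj⟩ := Finset.mem_image.1 h2
    exact hne k j l (hj.trans hl.symm)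

theorem Ak_set (k : Fin d) : {ω : Om d | Ak k ω} =
    {ω | (∀ β ∈ ({gf k} : Finset (FG d)), ω.2 β = true) ∧ ∀ β ∈ F0 k, ω.2 β = false} := by
  ext ω
  simp only [Ak, F0, Set.mem_setOf_eq, Finset.mem_singleton, forall_eq, Finset.mem_union, Finset.mem_image,
    Finset.mem_erase, Finset.mem_univ, and_true]
  constructor
  · rintro ⟨h1, h2⟩
    refine ⟨h1, ?_⟩
    rintro β (⟨j, hj, rfl⟩ | ⟨j, hj, rfl⟩)
    · exact (h2 j hj).1
    · exact (h2 j hj).2
  · rintro ⟨h1, h2⟩
    exact ⟨h1, fun j hj => ⟨h2 _ (Or.inl ⟨j, hj, rfl⟩), h2 _ (Or.inr ⟨j, hj, rfl⟩)⟩⟩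

theorem meas_Ak (k : Fin d) : MeasurableSet {ω : Om d | Ak k ω} := by
  have hm : ∀ β : FG d, Measurable fun ω : Om d => ω.2 β := fun β =>
    (measurable_pi_apply β).comp measurable_snd
  have hs : ∀ (β : FG d) (b : Bool), MeasurableSet {ω : Om d | ω.2 β = b} := fun β b =>
    hm β (measurableSet_singleton b)
  have h1 : {ω : Om d | Ak k ω} = {ω | ω.2 (gf k) = true} ∩
      ⋂ j ∈ (Finset.univ.erase k : Finset (Fin d)), ({ω | ω.2 (gf j) = false} ∩ {ω | ω.2 (gf k * gf j) = false}) := by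
    ext ω
    simp [Ak]
  rw [h1]
  exact (hs _ _).inter (Finset.measurableSet_biInter _ fun j _ => (hs _ _).inter (hs _ _))

/-- Job LOW. -/
theorem low : S_LYAP → S_MEAS → S_LOW := by
  intro hL hM n d ρ ε hn hρ hε c e hT hinj hne N
  obtain ⟨_, _, hP⟩ := hM d ε hε
  obtain ⟨g, h1, h2, h3⟩ := hL n d ρ hn (by exact_mod_cast hρ)
  set s : ℝ := (1 + 2 * (ρ : ℝ))⁻¹ * (ρ * ((n : ℝ) - 2) - 2) with hs
  rcases lt_or_ge s 0 with hs0 | hs0
  · rw [ENNReal.ofReal_of_nonpos]
    · exact zero_le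
    · have e1 : (d : ℝ) * ε * (1 - ε) ^ (2 * (d - 1)) * s / (n * ρ + d) * N =
          ((d : ℝ) * ε * (1 - ε) ^ (2 * (d - 1)) / (n * ρ + d) * N) * s := by ring
      rw [e1]
      refine mul_nonpos_of_nonneg_of_nonpos ?_ hs0.le
      have : (0 : ℝ) ≤ 1 - ε := by
        have : (ε : ℝ) ≤ 1 := by exact_mod_cast hε
        linarith
      positivity
  · set Λ : ℝ≥0 := n * ρ + d with hΛd
    have hΛ : 0 < Λ := by
      rw [hΛd]
      have : (0 : ℝ≥0) < n := by exact_mod_cast (by omega : 0 < n)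
      positivity
    have hd : ∀ k : Fin d, n * ρ + 1 ≤ Λ := by
      intro k
      have : 1 ≤ d := by have := k.2; omega
      have h4 : (1 : ℝ≥0) ≤ d := by exact_mod_cast this
      rw [hΛd]
      gcongr
    have hlow : ∀ (k : Fin d) (ω : Om d), Ak k ω → ENNReal.ofReal (N * (s / Λ)) ≤
        (stepE (csW n d) Λ (fieldOne ρ c ω))^[N] (fun x => ((csW n d).length x : ℝ≥0∞)) 1 := by
      intro k ω hω
      refine le_trans (ENNReal.ofReal_le_ofReal ?_)
        (claim ρ hT hω Λ hΛ (hd k) g s hs0 h1 h2 h3 N 1 (Or.inl (map_one _)))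
      have := (h1 (ω.1 * chi (prF (1 : WG n d))) 1).1
      linarith
    have hdis : Pairwise fun k l : Fin d => Disjoint {ω : Om d | Ak k ω} {ω : Om d | Ak l ω} := by
      intro k l hkl
      rw [Set.disjoint_left]
      intro ω hk hl
      have a1 : ω.2 (gf k) = true := hk.1
      have a2 : ω.2 (gf k) = false := (hl.2 k hkl).1
      rw [a1] at a2
      exact absurd a2 (by simp)
    have hmeas : PP d ε (⋃ k : Fin d, {ω : Om d | Ak k ω}) =
        (d : ℝ≥0∞) * ((ε * (1 - ε) ^ (2 * (d - 1)) : ℝ≥0) : ℝ≥0∞) := by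
      rw [measure_iUnion hdis fun k => meas_Ak k, tsum_fintype]
      have h5 : ∀ k : Fin d, PP d ε {ω : Om d | Ak k ω} = ((ε * (1 - ε) ^ (2 * (d - 1)) : ℝ≥0) : ℝ≥0∞) := by
        intro k
        rw [Ak_set, hP, card_F0 hinj hne, Finset.card_singleton, pow_one]
        rw [Finset.disjoint_left]
        intro β hβ h6
        rw [Finset.mem_singleton] at hβ
        subst hβ
        classical
        unfold F0 at h6
        rw [Finset.mem_union] at h6
        rcases h6 with h6 | h6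
        · obtain ⟨j, hj, h7⟩ := Finset.mem_image.1 h6
          exact (Finset.mem_erase.1 hj).1 (hinj h7)
        · obtain ⟨j, hj, h7⟩ := Finset.mem_image.1 h6
          exact hne k j k h7
      rw [Finset.sum_congr rfl fun k _ => h5 k, Finset.sum_const, Finset.card_univ, Fintype.card_fin,
        nsmul_eq_mul]
    have hAm : MeasurableSet (⋃ k : Fin d, {ω : Om d | Ak k ω}) := MeasurableSet.iUnion fun k => meas_Ak k
    have hfin : ENNReal.ofReal (N * (s / Λ)) * PP d ε (⋃ k : Fin d, {ω : Om d | Ak k ω}) ≤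
        meanN (csW n d) Λ (PP d ε) (fieldOne ρ c) N := by
      rw [← lintegral_indicator_const hAm]
      unfold meanN
      refine lintegral_mono fun ω => ?_
      by_cases hω : ω ∈ ⋃ k : Fin d, {ω : Om d | Ak k ω}
      · rw [Set.indicator_of_mem hω]
        obtain ⟨k, hk⟩ := Set.mem_iUnion.1 hω
        exact hlow k ω hk
      · rw [Set.indicator_of_notMem hω]
        exact zero_le
    refine le_trans (le_of_eq ?_) hfin
    rw [hmeas, ← ENNReal.ofReal_natCast, ← ENNReal.ofReal_coe_nnreal, ← ENNReal.ofReal_mul (Nat.cast_nonneg d),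
      ← ENNReal.ofReal_mul (by positivity)]
    congr 1
    rw [NNReal.coe_mul, NNReal.coe_pow, NNReal.coe_sub hε, hΛd]
    push_cast
    ring

end Pool.Agent.Q38.RF
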