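import Pool.Agent.Q38.RF.Base

/-!
# Project RF (helper63), job UP: the upper bound for the larger field
-/

set_option autoImplicit false

namespace Pool.Agent.Q38.RF

open Pool.Agent.Q63.RF MeasureTheory ProbabilityTheory Filter Topology
open scoped ENNReal NNReal

section Step

variable {B W : Type} [Fintype B] [Group W] {M : CoxeterMatrix B}

theorem stepE_mono (cs : CoxeterSystem M W) (Λ : ℝ≥0) (a : W → B → ℝ≥0) {f g : W → ℝ≥0∞}
    (h : ∀ x, f x ≤ g x) (x : W) : stepE cs Λ a f x ≤ stepE cs Λ a g x := by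
  unfold stepE
  exact add_le_add (mul_le_mul_right (h x) _)
    (Finset.sum_le_sum fun i _ => mul_le_mul_right (h _) _)

theorem stepE_add (cs : CoxeterSystem M W) (Λ : ℝ≥0) (a : W → B → ℝ≥0) (f g : W → ℝ≥0∞) :
    stepE cs Λ a (fun x => f x + g x) = fun x => stepE cs Λ a f x + stepE cs Λ a g x := by
  funext x
  unfold stepE
  simp only [mul_add, Finset.sum_add_distrib]
  ring

theorem stepE_smul (cs : CoxeterSystem M W) (Λ : ℝ≥0) (a : W → B → ℝ≥0) (c : ℝ≥0∞) (f : W → ℝ≥0∞) :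
    stepE cs Λ a (fun x => c * f x) = fun x => c * stepE cs Λ a f x := by
  funext x
  unfold stepE
  rw [mul_add, Finset.mul_sum]
  congr 1
  · ring
  · exact Finset.sum_congr rfl fun i _ => by ring

theorem iter_mono (cs : CoxeterSystem M W) (Λ : ℝ≥0) (a : W → B → ℝ≥0) (N : ℕ) {f g : W → ℝ≥0∞}
    (h : ∀ x, f x ≤ g x) (x : W) : (stepE cs Λ a)^[N] f x ≤ (stepE cs Λ a)^[N] g x := by
  induction N generalizing x with
  | zero => exact h x
  | succ N ih =>
    rw [Function.iterate_succ_apply', Function.iterate_succ_apply']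
    exact stepE_mono cs Λ a ih x

theorem iter_add (cs : CoxeterSystem M W) (Λ : ℝ≥0) (a : W → B → ℝ≥0) (N : ℕ) (f g : W → ℝ≥0∞) :
    (stepE cs Λ a)^[N] (fun x => f x + g x) = fun x => (stepE cs Λ a)^[N] f x + (stepE cs Λ a)^[N] g x := by
  induction N with
  | zero => rfl
  | succ N ih =>
    simp only [Function.iterate_succ_apply']
    rw [ih, stepE_add]

theorem iter_smul (cs : CoxeterSystem M W) (Λ : ℝ≥0) (a : W → B → ℝ≥0) (N : ℕ) (c : ℝ≥0∞) (f : W → ℝ≥0∞) :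
    (stepE cs Λ a)^[N] (fun x => c * f x) = fun x => c * (stepE cs Λ a)^[N] f x := by
  induction N with
  | zero => rfl
  | succ N ih =>
    simp only [Function.iterate_succ_apply']
    rw [ih, stepE_smul]

/-- an additive error in each step -/
theorem iter_drift (cs : CoxeterSystem M W) (Λ : ℝ≥0) (a : W → B → ℝ≥0) {V D : W → ℝ≥0∞} (c : ℝ≥0∞)
    (h : ∀ x, stepE cs Λ a V x ≤ V x + c * D x) (N : ℕ) (x : W) :
    (stepE cs Λ a)^[N] V x ≤ V x + c * ∑ j ∈ Finset.range N, (stepE cs Λ a)^[j] D x := by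
  induction N with
  | zero => simp
  | succ N ih =>
    rw [Function.iterate_succ_apply]
    refine (iter_mono cs Λ a N h x).trans ?_
    rw [iter_add, iter_smul, Finset.sum_range_succ, mul_add, ← add_assoc]
    exact add_le_add ih le_rfl

theorem meas_iter {Ω : Type} [MeasurableSpace Ω] (cs : CoxeterSystem M W) (Λ : ℝ≥0)
    (r : Ω → W → B → ℝ≥0) (hr : ∀ x i, Measurable fun ω => r ω x i) (F : Ω → W → ℝ≥0∞)
    (hF : ∀ x, Measurable fun ω => F ω x) (N : ℕ) :
    ∀ x, Measurable fun ω => (stepE cs Λ (r ω))^[N] (F ω) x := by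
  induction N with
  | zero => exact hF
  | succ N ih =>
    intro x
    simp only [Function.iterate_succ_apply']
    unfold stepE
    refine Measurable.add (Measurable.mul ?_ (ih x)) ?_
    · refine Measurable.coe_nnreal_ennreal ?_
      refine Measurable.div_const ?_ _
      refine Measurable.const_sub ?_ _
      unfold tot
      exact Finset.measurable_sum _ fun i _ => hr x i
    · refine Finset.measurable_sum _ fun i _ => Measurable.mul ?_ (ih _)
      exact Measurable.coe_nnreal_ennreal (Measurable.div_const (hr x i) _)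

/-- one step of a function that increases by at most `D i` along the edge `i` -/
theorem step_le (cs : CoxeterSystem M W) (Λ : ℝ≥0) (hΛ : 0 < Λ) (a : W → B → ℝ≥0) (x : W)
    (ha : tot a x ≤ Λ) (V : W → ℝ≥0) (D : B → ℝ≥0)
    (h : ∀ i, a x i ≠ 0 → V (x * cs.simple i) ≤ V x + D i) :
    stepE cs Λ a (fun y => (V y : ℝ≥0∞)) x ≤ ((V x + (1 / Λ) * ∑ i, a x i * D i : ℝ≥0) : ℝ≥0∞) := by
  unfold stepE
  have h1 : ∀ i ∈ (Finset.univ : Finset B), ((a x i / Λ : ℝ≥0) : ℝ≥0∞) * (V (x * cs.simple i) : ℝ≥0∞) ≤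
      ((a x i / Λ * (V x + D i) : ℝ≥0) : ℝ≥0∞) := by
    intro i _
    rw [← ENNReal.coe_mul, ENNReal.coe_le_coe]
    by_cases h0 : a x i = 0
    · rw [h0]; simp
    · exact mul_le_mul_right (h i h0) _
  refine (add_le_add le_rfl (Finset.sum_le_sum h1)).trans ?_
  rw [← ENNReal.coe_mul]
  push_cast
  norm_cast
  have h2 : ∑ i, a x i / Λ * (V x + D i) = tot a x / Λ * V x + (1 / Λ) * ∑ i, a x i * D i := by
    unfold tot
    rw [Finset.sum_div, Finset.sum_mul, Finset.mul_sum, ← Finset.sum_add_distrib]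
    refine Finset.sum_congr rfl fun i _ => ?_
    field_simp
  rw [h2, ← add_assoc, ← add_mul, ← add_div, tsub_add_cancel_of_le ha, div_self hΛ.ne', one_mul]

end Step

variable {n d : ℕ}

/-- indicator of the event that the random set contains `β` -/
noncomputable def Ib (β : FG d) (ω : Om d) : ℝ≥0 := if ω.2 β = true then 1 else 0

/-- the error -/
noncomputable def psi (n : ℕ) {d : ℕ} (ρ : ℝ≥0) (ω : Om d) : ℝ≥0 :=
  2 * n ^ 2 * ρ * Ib 1 ω + n * ∑ k : Fin d, Ib 1 ω * Ib (gf k) ω + ∑ k : Fin d, (Ib 1 ω + Ib (gf k) ω)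

/-- the type used at `x` -/
noncomputable def th (ω : Om d) (x : WG n d) : ℤˣ :=
  if ω.2 (prF x) = true then -(ω.1 * chi (prF x)) else ω.1 * chi (prF x)

/-- the function that increases slowly -/
noncomputable def VV (U : ℤˣ → WG n d → ℕ) (ω : Om d) (x : WG n d) : ℝ≥0 :=
  n * (U (th ω x) x + 1) + (csF d).length (prF x)

/-- the transformations -/
noncomputable abbrev TT (x : WG n d) (ω : Om d) : Om d :=
  (ω.1 * chi (prF x), fun β => ω.2 (prF x * β))

theorem V_ga {U : ℤˣ → WG n d → ℕ} (h2 : ∀ τ x j, U τ (x * ga τ j) = U τ x)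
    (h4 : ∀ τ x, U (-τ) x ≤ U τ x + 1) (ω : Om d) (x : WG n d) (j : Fin n) :
    VV U ω (x * ga (ω.1 * chi (prF x)) j) ≤ VV U ω x + 2 * n * Ib (prF x) ω := by
  have hp : prF (x * ga (ω.1 * chi (prF x)) j) = prF x := by rw [map_mul, prF_ga, mul_one]
  unfold VV th Ib
  rw [hp]
  set t := ω.1 * chi (prF x)
  split_ifs with h
  · have h5 : U (-t) (x * ga t j) ≤ U (-t) x + 2 := by
      have e1 := h4 t (x * ga t j)
      rw [h2] at e1
      have e2 := h4 (-t) x
      rw [neg_neg] at e2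
      omega
    have h6 : (U (-t) (x * ga t j) : ℝ≥0) ≤ U (-t) x + 2 := by exact_mod_cast h5
    calc (n : ℝ≥0) * ((U (-t) (x * ga t j) : ℝ≥0) + 1) + ((csF d).length (prF x) : ℝ≥0)
        ≤ n * ((U (-t) x + 2 : ℝ≥0) + 1) + (csF d).length (prF x) := by gcongr
      _ = _ := by ring
  · rw [h2]; simp

theorem V_gs {U : ℤˣ → WG n d → ℕ} (h3 : ∀ τ x k, U τ (x * gs k) = U τ x)
    (h4 : ∀ τ x, U (-τ) x ≤ U τ x + 1) (ω : Om d) (x : WG n d) (k : Fin d)
    (ho : ω.2 (prF x) = true ∨ ω.2 (prF x * gf k) = true) :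
    VV U ω (x * gs k) ≤ VV U ω x + (n * (Ib (prF x) ω * Ib (prF x * gf k) ω) + 1) := by
  have hp : prF (x * gs k) = prF x * gf k := by rw [map_mul, prF_gs]
  have hl : (csF d).length (prF x * gf k) ≤ (csF d).length (prF x) + 1 := by
    refine ((csF d).length_mul_le _ _).trans ?_
    have := length_simple_le (csF d) k
    unfold gf
    omega
  have hl' : ((csF d).length (prF x * gf k) : ℝ≥0) ≤ (csF d).length (prF x) + 1 := by exact_mod_cast hl
  unfold VV th Ib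
  rw [hp, map_mul, chi_gf, h3]
  have e1 : ω.1 * (chi (prF x) * -1) = -(ω.1 * chi (prF x)) := by simp
  rw [e1, neg_neg]
  set t := ω.1 * chi (prF x)
  by_cases c1 : ω.2 (prF x) = true
  · by_cases c2 : ω.2 (prF x * gf k) = true
    · simp only [c1, c2, if_true]
      have h5 : (U t x : ℝ≥0) ≤ U (-t) x + 1 := by
        have e2 := h4 (-t) x
        rw [neg_neg] at e2
        exact_mod_cast e2
      calc (n : ℝ≥0) * ((U t x : ℝ≥0) + 1) + ((csF d).length (prF x * gf k) : ℝ≥0)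
          ≤ n * ((U (-t) x + 1 : ℝ≥0) + 1) + ((csF d).length (prF x) + 1) := by gcongr
        _ = _ := by ring
    · simp only [c1, c2, if_true]
      simp only [if_false, mul_zero, zero_add, Bool.false_eq_true]
      rw [add_assoc]
      gcongr
  · have c2 : ω.2 (prF x * gf k) = true := ho.resolve_left c1
    simp only [c1, c2, if_true]
    simp only [if_false, zero_mul, mul_zero, zero_add, Bool.false_eq_true]
    rw [add_assoc]
    gcongr

theorem V_step (ρ : ℝ≥0) (Λ : ℝ≥0) (hΛ : 0 < Λ) {U : ℤˣ → WG n d → ℕ}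
    (h2 : ∀ τ x j, U τ (x * ga τ j) = U τ x) (h3 : ∀ τ x k, U τ (x * gs k) = U τ x)
    (h4 : ∀ τ x, U (-τ) x ≤ U τ x + 1) (ω : Om d) (x : WG n d) (ht : tot (fieldTwo ρ ω) x ≤ Λ) :
    stepE (csW n d) Λ (fieldTwo ρ ω) (fun y => (VV U ω y : ℝ≥0∞)) x ≤
      VV U ω x + ((1 / Λ : ℝ≥0) : ℝ≥0∞) * (psi n ρ (TT x ω) : ℝ≥0∞) := by
  let D : Gen n d → ℝ≥0 := fun i => match i with
    | .inl _ => 2 * n * Ib (prF x) ω
    | .inr k => n * (Ib (prF x) ω * Ib (prF x * gf k) ω) + 1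
  refine (step_le (csW n d) Λ hΛ (fieldTwo ρ ω) x ht (VV U ω) D ?_).trans ?_
  · intro i hi
    rcases i with ⟨τ, j⟩ | k
    · have h5 : τ = ω.1 * chi (prF x) := by
        by_contra hne
        exact hi (if_neg hne)
      subst h5
      exact V_ga h2 h4 ω x j
    · have h5 : ω.2 (prF x) = true ∨ ω.2 (prF x * gf k) = true := by
        by_contra hne
        exact hi (if_neg hne)
      exact V_gs h3 h4 ω x k h5
  · rw [← ENNReal.coe_mul, ← ENNReal.coe_add, ENNReal.coe_le_coe]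
    gcongr
    rw [Fintype.sum_sum_type, Fintype.sum_prod_type]
    have hI1 : Ib 1 (TT x ω) = Ib (prF x) ω := by
      unfold Ib TT
      simp
    have hI2 : ∀ k : Fin d, Ib (gf k) (TT x ω) = Ib (prF x * gf k) ω := fun k => rfl
    unfold psi
    simp only [hI1, hI2]
    have h6 : ∑ τ : ℤˣ, ∑ j : Fin n, fieldTwo ρ ω x (.inl (τ, j)) * D (.inl (τ, j)) =
        n * (ρ * (2 * n * Ib (prF x) ω)) := by
      rw [Finset.sum_eq_single (ω.1 * chi (prF x))]
      · have h7 : ∀ j : Fin n, fieldTwo ρ ω x (.inl (ω.1 * chi (prF x), j)) = ρ := fun j => if_pos rfl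
        simp only [h7, D]
        rw [Finset.sum_const, Finset.card_univ, Fintype.card_fin, nsmul_eq_mul]
      · intro τ _ hτ
        refine Finset.sum_eq_zero fun j _ => ?_
        have h7 : fieldTwo ρ ω x (.inl (τ, j)) = 0 := if_neg hτ
        rw [h7, zero_mul]
      · intro h; exact absurd (Finset.mem_univ _) h
    have h8 : ∑ k : Fin d, fieldTwo ρ ω x (.inr k) * D (.inr k) ≤
        n * ∑ k : Fin d, Ib (prF x) ω * Ib (prF x * gf k) ω +
          ∑ k : Fin d, (Ib (prF x) ω + Ib (prF x * gf k) ω) := by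
      rw [Finset.mul_sum, ← Finset.sum_add_distrib]
      refine Finset.sum_le_sum fun k _ => ?_
      have h9 : fieldTwo ρ ω x (.inr k) ≤ 1 := by
        show (if ω.2 (prF x) = true ∨ ω.2 (prF x * gf k) = true then (1 : ℝ≥0) else 0) ≤ 1
        split_ifs <;> simp
      have h10 : fieldTwo ρ ω x (.inr k) ≤ Ib (prF x) ω + Ib (prF x * gf k) ω := by
        show (if ω.2 (prF x) = true ∨ ω.2 (prF x * gf k) = true then (1 : ℝ≥0) else 0) ≤ _
        unfold Ib
        by_cases c1 : ω.2 (prF x) = true <;> by_cases c2 : ω.2 (prF x * gf k) = true <;> simp [c1, c2]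
      calc fieldTwo ρ ω x (.inr k) * (n * (Ib (prF x) ω * Ib (prF x * gf k) ω) + 1)
          = fieldTwo ρ ω x (.inr k) * (n * (Ib (prF x) ω * Ib (prF x * gf k) ω)) +
            fieldTwo ρ ω x (.inr k) := by ring
        _ ≤ 1 * (n * (Ib (prF x) ω * Ib (prF x * gf k) ω)) + (Ib (prF x) ω + Ib (prF x * gf k) ω) :=
            add_le_add (mul_le_mul_left h9 _) h10
        _ = _ := by ring
    calc _ ≤ n * (ρ * (2 * n * Ib (prF x) ω)) + (n * ∑ k : Fin d, Ib (prF x) ω * Ib (prF x * gf k) ω +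
          ∑ k : Fin d, (Ib (prF x) ω + Ib (prF x * gf k) ω)) := add_le_add h6.le h8
      _ = _ := by ring

theorem Ib_ennreal (β : FG d) : (fun ω : Om d => (Ib β ω : ℝ≥0∞)) =
    Set.indicator {ω | ω.2 β = true} (fun _ => (1 : ℝ≥0∞)) := by
  funext ω
  unfold Ib Set.indicator
  by_cases h : ω.2 β = true
  · simp [h]
  · simp [h]

theorem meas_coord (β : FG d) : MeasurableSet {ω : Om d | ω.2 β = true} := by
  have h : Measurable fun ω : Om d => ω.2 β := (measurable_pi_apply β).comp measurable_snd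
  exact h (measurableSet_singleton true)

theorem meas_Ib (β : FG d) : Measurable fun ω : Om d => (Ib β ω : ℝ≥0∞) := by
  rw [Ib_ennreal]
  exact measurable_const.indicator (meas_coord β)

theorem psi_ennreal (ρ : ℝ≥0) : (fun ω : Om d => (psi n ρ ω : ℝ≥0∞)) = fun ω =>
    ((2 * n ^ 2 * ρ : ℝ≥0) : ℝ≥0∞) * (Ib 1 ω : ℝ≥0∞) +
      (n : ℝ≥0∞) * ∑ k : Fin d, (Ib 1 ω : ℝ≥0∞) * (Ib (gf k) ω : ℝ≥0∞) +
      ∑ k : Fin d, ((Ib 1 ω : ℝ≥0∞) + (Ib (gf k) ω : ℝ≥0∞)) := by
  funext ω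
  unfold psi
  push_cast
  rfl

theorem meas_psi (ρ : ℝ≥0) : Measurable fun ω : Om d => (psi n ρ ω : ℝ≥0∞) := by
  rw [psi_ennreal]
  have a1 : Measurable fun ω : Om d => ((2 * n ^ 2 * ρ : ℝ≥0) : ℝ≥0∞) * (Ib 1 ω : ℝ≥0∞) :=
    (meas_Ib 1).const_mul _
  have a2 : Measurable fun ω : Om d => (n : ℝ≥0∞) * ∑ k : Fin d, (Ib 1 ω : ℝ≥0∞) * (Ib (gf k) ω : ℝ≥0∞) :=
    Measurable.const_mul (Finset.measurable_sum _ fun k _ => (meas_Ib 1).mul (meas_Ib _)) _
  have a3 : Measurable fun ω : Om d => ∑ k : Fin d, ((Ib 1 ω : ℝ≥0∞) + (Ib (gf k) ω : ℝ≥0∞)) :=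
    Finset.measurable_sum _ fun k _ => (meas_Ib 1).add (meas_Ib _)
  exact (a1.add a2).add a3

theorem int_psi (ρ ε : ℝ≥0) (P : Measure (Om d))
    (h1 : ∀ β : FG d, P {ω | ω.2 β = true} = (ε : ℝ≥0∞))
    (h2 : ∀ k : Fin d, P {ω | ω.2 1 = true ∧ ω.2 (gf k) = true} = ((ε ^ 2 : ℝ≥0) : ℝ≥0∞)) :
    ∫⁻ ω, (psi n ρ ω : ℝ≥0∞) ∂P = ((n * ε * (2 * n * ρ + d * ε) + 2 * d * ε : ℝ≥0) : ℝ≥0∞) := by
  have i1 : ∀ β : FG d, ∫⁻ ω, (Ib β ω : ℝ≥0∞) ∂P = ε := by
    intro β
    rw [Ib_ennreal, lintegral_indicator_const (meas_coord β), h1, one_mul]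
  have i2 : ∀ k : Fin d, ∫⁻ ω, (Ib 1 ω : ℝ≥0∞) * (Ib (gf k) ω : ℝ≥0∞) ∂P = ((ε ^ 2 : ℝ≥0) : ℝ≥0∞) := by
    intro k
    have e1 : (fun ω : Om d => (Ib 1 ω : ℝ≥0∞) * (Ib (gf k) ω : ℝ≥0∞)) =
        Set.indicator {ω | ω.2 1 = true ∧ ω.2 (gf k) = true} (fun _ => (1 : ℝ≥0∞)) := by
      funext ω
      unfold Ib Set.indicator
      by_cases c1 : ω.2 1 = true <;> by_cases c2 : ω.2 (gf k) = true <;> simp [c1, c2]
    have hms : MeasurableSet {ω : Om d | ω.2 1 = true ∧ ω.2 (gf k) = true} :=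
      (meas_coord 1).inter (meas_coord (gf k))
    rw [e1, lintegral_indicator_const hms, h2, one_mul]
  rw [psi_ennreal, lintegral_add_left, lintegral_add_left, lintegral_const_mul _ (meas_Ib 1), i1,
    lintegral_const_mul, lintegral_finset_sum, lintegral_finset_sum]
  · rw [Finset.sum_congr rfl fun k _ => i2 k]
    have i3 : ∀ k : Fin d, ∫⁻ ω, ((Ib 1 ω : ℝ≥0∞) + (Ib (gf k) ω : ℝ≥0∞)) ∂P = ((2 * ε : ℝ≥0) : ℝ≥0∞) := by
      intro k
      rw [lintegral_add_left (meas_Ib 1), i1, i1, ← ENNReal.coe_add]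
      congr 1
      ring
    rw [Finset.sum_congr rfl fun k _ => i3 k, Finset.sum_const, Finset.sum_const, Finset.card_univ,
      Fintype.card_fin, nsmul_eq_mul, nsmul_eq_mul, ← ENNReal.coe_natCast, ← ENNReal.coe_natCast,
      ← ENNReal.coe_mul, ← ENNReal.coe_mul, ← ENNReal.coe_mul, ← ENNReal.coe_mul, ← ENNReal.coe_add,
      ← ENNReal.coe_add]
    congr 1
    ring
  · exact fun k _ => (meas_Ib 1).add (meas_Ib _)
  · exact fun k _ => (meas_Ib 1).mul (meas_Ib _)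
  · exact Finset.measurable_sum _ fun k _ => (meas_Ib 1).mul (meas_Ib _)
  · exact (meas_Ib 1).const_mul _
  · exact Measurable.add ((meas_Ib 1).const_mul _)
      (Measurable.const_mul (Finset.measurable_sum _ fun k _ => (meas_Ib 1).mul (meas_Ib _)) _)

/-- Job UP. -/
theorem up : S_BLK → S_STAT → S_MEAS → S_SYS → S_UP := by
  intro hB hSt hM hS n d ρ ε hn hρ hε N
  obtain ⟨hpr, _, hP⟩ := hM d ε hε
  haveI := hpr
  obtain ⟨_, hsys⟩ := hS n d ρ ε hn hρ hε
  obtain ⟨U, u1, u2, u3, u4, u5⟩ := hB n d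
  set Λ : ℝ≥0 := n * ρ + d with hΛd
  have hΛ : 0 < Λ := hsys.pos
  have hstat := hSt (Gen n d) (WG n d) (Om d) (MW n d) (csW n d) (PP d ε) (fieldTwo ρ) Λ _ hsys
    (fun ω => (psi n ρ ω : ℝ≥0∞)) (meas_psi ρ)
  have hI : ∫⁻ ω, (psi n ρ ω : ℝ≥0∞) ∂(PP d ε) =
      ((n * ε * (2 * n * ρ + d * ε) + 2 * d * ε : ℝ≥0) : ℝ≥0∞) := by
    refine int_psi ρ ε _ (fun β => ?_) fun k => ?_
    · have h1 := hP {β} ∅ (Finset.disjoint_empty_right _)
      simpa using h1
    · have h1k : (1 : FG d) ≠ gf k := by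
        intro h
        have h2 := congrArg chi h
        rw [map_one, chi_gf] at h2
        exact absurd h2 (by decide)
      classical
      have h1 := hP {1, gf k} ∅ (Finset.disjoint_empty_right _)
      rw [Finset.card_pair h1k] at h1
      simpa using h1
  set J : ℝ≥0 := n * ε * (2 * n * ρ + d * ε) + 2 * d * ε with hJ
  have hV : ∀ ω : Om d, (stepE (csW n d) Λ (fieldTwo ρ ω))^[N] (fun x => ((csW n d).length x : ℝ≥0∞)) 1 ≤
      (n : ℝ≥0∞) + ((1 / Λ : ℝ≥0) : ℝ≥0∞) * ∑ j ∈ Finset.range N,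
        (stepE (csW n d) Λ (fieldTwo ρ ω))^[j] (fun x => (psi n ρ (TT x ω) : ℝ≥0∞)) 1 := by
    intro ω
    have h1 : ∀ x : WG n d, ((csW n d).length x : ℝ≥0∞) ≤ (VV U ω x : ℝ≥0∞) := by
      intro x
      have h2 := u5 (th ω x) x
      have h3 : ((csW n d).length x : ℝ≥0) ≤ VV U ω x := by
        unfold VV
        exact_mod_cast h2
      exact_mod_cast h3
    refine (iter_mono _ _ _ _ h1 1).trans ?_
    refine (iter_drift (csW n d) Λ (fieldTwo ρ ω) _
      (fun x => V_step ρ Λ hΛ u2 u3 u4 ω x (hsys.bdd ω x)) N 1).trans (le_of_eq ?_)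
    congr 1
    unfold VV
    rw [u1, map_one, (csF d).length_one]
    simp
  have hmean : meanN (csW n d) Λ (PP d ε) (fieldTwo ρ) N ≤
      (n : ℝ≥0∞) + ((1 / Λ : ℝ≥0) : ℝ≥0∞) * (N * (J : ℝ≥0∞)) := by
    unfold meanN
    refine (lintegral_mono hV).trans (le_of_eq ?_)
    have hm : ∀ j, Measurable fun ω : Om d =>
        (stepE (csW n d) Λ (fieldTwo ρ ω))^[j] (fun x => (psi n ρ (TT x ω) : ℝ≥0∞)) 1 := by
      intro j
      refine meas_iter (csW n d) Λ (fieldTwo ρ) hsys.meas _ (fun x => ?_) j 1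
      exact (meas_psi ρ).comp (hsys.pres x).measurable
    rw [lintegral_add_left measurable_const, lintegral_const, measure_univ, mul_one,
      lintegral_const_mul _ (Finset.measurable_sum _ fun j _ => hm j),
      lintegral_finset_sum _ fun j _ => hm j, Finset.sum_congr rfl fun j _ => hstat j,
      Finset.sum_const, Finset.card_range, nsmul_eq_mul, hI]
  refine hmean.trans (le_of_eq ?_)
  have e1 : ((n : ℝ) + (n * ε * (2 * n * ρ + d * ε) + 2 * d * ε) / (n * ρ + d) * N) =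
      ((n + 1 / Λ * (N * J) : ℝ≥0) : ℝ) := by
    rw [hΛd, hJ]
    push_cast
    ring
  rw [e1, ENNReal.ofReal_coe_nnreal]
  norm_cast

end Pool.Agent.Q38.RF
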